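import Pool.Agent.Helper12_XQ.Stmt

/-!
Squad XQ (MP_5b0138_an), module U, part FSER: the kernel of type A is a power series with
nonnegative coefficients in the full disc.
-/

set_option autoImplicit false

namespace Pool.Agent.XQ.U.H47

open MeasureTheory Filter Topology Real Set Pool.Agent.AEU Pool.Agent.AEU.H12 Pool.Agent.XQ
open Pool.Agent.XQ.U

theorem fser (hsinx : SinxStmt) (hfour : FourStmt) : FserStmt := by
  intro b hb
  obtain ⟨c, hc1, hc2, hc3, hc4⟩ := hsinx
  obtain ⟨hf1, hf2⟩ := hfour b hb
  obtain ⟨hb1, hb2⟩ := hb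
  have hpi := pi_pos
  have hb0 : 0 < b := by linarith
  have hpb : π / b < π := by
    rw [div_lt_iff₀ hb0]
    nlinarith
  have hpb2 : π / 2 < π / b := div_lt_div_of_pos_left hpi hb0 hb2
  have hW : ∀ τ, 0 < τ → 0 ≤ WW b τ := by
    intro τ hτ
    unfold WW
    apply div_nonneg
    · rw [sinh_nonneg_iff]
      exact mul_nonneg (by linarith) hτ.le
    · rw [sinh_nonneg_iff]
      positivity
  have hWm : Measurable (WW b) := by
    unfold WW
    exact (Real.measurable_sinh.comp (measurable_id.const_mul _)).div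
      (Real.measurable_sinh.comp (measurable_id.const_mul _))
  refine ⟨fun m => ∫ τ in Ioi (0 : ℝ), c m τ * WW b τ, ?_, ?_⟩
  · intro m
    apply setIntegral_nonneg measurableSet_Ioi
    intro τ hτ
    exact mul_nonneg (hc2 m τ) (hW τ hτ)
  · intro ζ hζ
    set x : ℝ := √|ζ| with hx
    have hx0 : 0 ≤ x := sqrt_nonneg _
    have hxx : x ^ 2 = |ζ| := sq_sqrt (abs_nonneg _)
    have hxs : x < sin (π / b - π / 2) := by
      have h1 : √|ζ| < √(zb b) := sqrt_lt_sqrt (abs_nonneg _) hζ
      have h2 : √(zb b) = sin (π / b - π / 2) := by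
        unfold zb
        rw [sqrt_sq_eq_abs, sin_sub_pi_div_two, abs_of_neg]
        exact cos_neg_of_pi_div_two_lt_of_lt (by linarith) (by linarith)
      rw [← h2]
      exact h1
    have hx1 : x < 1 := hxs.trans_le (sin_le_one _)
    have harc : arcsin x < π / b - π / 2 := by
      rw [arcsin_lt_iff_lt_sin' ⟨by linarith, by linarith⟩]
      exact hxs
    have harc0 : 0 ≤ arcsin x := arcsin_nonneg.mpr hx0
    obtain ⟨hint, hval⟩ := hf1 (arcsin x) harc0 harc
    -- the domination
    have hbs : ∀ τ, HasSum (fun m => c m τ * x ^ (2 * m) * WW b τ)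
        (cosh (2 * τ * arcsin x) * WW b τ) := fun τ => (hc3 τ x hx0 hx1).mul_right _
    have hpow : ∀ m : ℕ, |ζ ^ m| = x ^ (2 * m) := by
      intro m
      rw [abs_pow, ← hxx, pow_mul]
    have hgen : ∀ g : ℝ → ℝ, (∀ τ, HasSum (fun m => c m τ * WW b τ * ζ ^ m) (g τ)) →
        HasSum (fun m => (∫ τ in Ioi (0 : ℝ), c m τ * WW b τ) * ζ ^ m)
          (∫ τ in Ioi (0 : ℝ), g τ) := by
      intro g hg
      have h := hasSum_integral_of_dominated_convergence
        (μ := volume.restrict (Ioi (0 : ℝ)))
        (F := fun m τ => c m τ * WW b τ * ζ ^ m) (f := g)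
        (fun m τ => c m τ * x ^ (2 * m) * WW b τ) ?_ ?_ ?_ ?_ ?_
      · have e : (fun m => ∫ τ in Ioi (0 : ℝ), c m τ * WW b τ * ζ ^ m) =
            fun m => (∫ τ in Ioi (0 : ℝ), c m τ * WW b τ) * ζ ^ m := by
          funext m
          rw [integral_mul_const]
        rw [e] at h
        exact h
      · intro m
        exact (((hc1 m).measurable.mul hWm).mul_const _).aestronglyMeasurable
      · intro m
        rw [ae_restrict_iff' measurableSet_Ioi]
        refine Eventually.of_forall (fun τ hτ => ?_)
        rw [norm_eq_abs, abs_mul, hpow m, abs_of_nonneg (mul_nonneg (hc2 m τ) (hW τ hτ))]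
        exact le_of_eq (by ring)
      · exact Eventually.of_forall (fun τ => (hbs τ).summable)
      · have : (fun τ => ∑' m, c m τ * x ^ (2 * m) * WW b τ) =
            fun τ => cosh (2 * τ * arcsin x) * WW b τ := by
          funext τ
          exact (hbs τ).tsum_eq
        rw [this]
        exact hint
      · exact Eventually.of_forall hg
    by_cases hz : 0 ≤ ζ
    · have hxz : √ζ = x := by rw [hx, abs_of_nonneg hz]
      have hFR : FR b ζ = ∫ τ in Ioi (0 : ℝ), cosh (2 * τ * arcsin x) * WW b τ := by
        unfold FR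
        rw [if_pos hz, hval, hxz]
      rw [hFR]
      apply hgen
      intro τ
      have h1 := hbs τ
      have h2 : (fun m => c m τ * x ^ (2 * m) * WW b τ) = fun m => c m τ * WW b τ * ζ ^ m := by
        funext m
        rw [pow_mul, hxx, abs_of_nonneg hz]
        ring
      rwa [h2] at h1
    · push Not at hz
      have hxz : √(-ζ) = x := by rw [hx, abs_of_neg hz]
      have hFR : FR b ζ = ∫ τ in Ioi (0 : ℝ), cos (2 * τ * arsinh x) * WW b τ := by
        unfold FR
        rw [if_neg (not_le.mpr hz), hf2, hxz]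
      rw [hFR]
      apply hgen
      intro τ
      have h1 := (hc4 τ x hx0 hx1).mul_right (WW b τ)
      have h2 : (fun m => c m τ * (-1) ^ m * x ^ (2 * m) * WW b τ) =
          fun m => c m τ * WW b τ * ζ ^ m := by
        funext m
        rw [pow_mul, hxx, abs_of_neg hz]
        have : (-1 : ℝ) ^ m * (-ζ) ^ m = ζ ^ m := by
          rw [← mul_pow]
          congr 1
          ring
        calc c m τ * (-1) ^ m * (-ζ) ^ m * WW b τ
            = c m τ * WW b τ * ((-1) ^ m * (-ζ) ^ m) := by ring
          _ = _ := by rw [this]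
      rwa [h2] at h1

end Pool.Agent.XQ.U.H47
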