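import Pool.Agent.Helper12_XQ.Stmt
import Pool.Agent.Helper12_AEU.AInj

/-!
Squad XQ (MP_5b0138_an), module U, part MONO: monotonicity of the coefficients of type A.
-/

set_option autoImplicit false

namespace Pool.Agent.XQ.U.H47

open MeasureTheory Filter Topology Real Set Pool.Agent.AEU Pool.Agent.AEU.H12 Pool.Agent.XQ
open Pool.Agent.XQ.U

lemma g_pos {T : ℝ} (h0 : 0 < T) (h1 : T < 2 * π) : 0 < T * (2 + cos T) - 3 * sin T := by
  rcases lt_or_ge T π with h | h
  · have hm : StrictMonoOn (fun s : ℝ => s * (2 + cos s) - 3 * sin s) (Icc 0 π) := by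
      apply strictMonoOn_of_deriv_pos (convex_Icc 0 π)
      · fun_prop
      · intro s hs
        rw [interior_Icc] at hs
        have hd : HasDerivAt (fun s : ℝ => s * (2 + cos s) - 3 * sin s)
            (1 * (2 + cos s) + s * (-sin s) - 3 * cos s) s := by
          have h1 : HasDerivAt (fun s : ℝ => 2 + cos s) (-sin s) s :=
            (Real.hasDerivAt_cos s).const_add 2
          exact ((hasDerivAt_id s).mul h1).sub ((Real.hasDerivAt_sin s).const_mul 3)
        rw [hd.deriv]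
        set u := s / 2 with hu
        have hs2 : s = 2 * u := by rw [hu]; ring
        have hu0 : 0 < u := by rw [hu]; linarith [hs.1]
        have hu1 : u < π / 2 := by rw [hu]; linarith [hs.2]
        have hc : 0 < cos u := cos_pos_of_mem_Ioo ⟨by linarith only [hu0, hu1], hu1⟩
        have hsn : 0 < sin u := sin_pos_of_pos_of_lt_pi hu0 (by linarith [Real.pi_pos])
        have ht : u * cos u < sin u := by
          have := Real.lt_tan hu0 hu1
          rw [tan_eq_sin_div_cos, lt_div_iff₀ hc] at this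
          exact this
        have e1 : cos s = 1 - 2 * sin u ^ 2 := by
          rw [hs2, cos_two_mul]
          have := sin_sq_add_cos_sq u
          linarith only [this]
        have e2 : sin s = 2 * sin u * cos u := by rw [hs2, sin_two_mul]
        rw [e1, e2, hs2]
        have e3 : 1 * (2 + (1 - 2 * sin u ^ 2)) + 2 * u * (-(2 * sin u * cos u)) -
            3 * (1 - 2 * sin u ^ 2) = 4 * sin u * (sin u - u * cos u) := by ring
        rw [e3]
        exact mul_pos (by positivity) (by linarith)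
    have := hm (left_mem_Icc.mpr pi_pos.le) (⟨h0.le, h.le⟩ : T ∈ Icc 0 π) h0
    simpa using this
  · have h2 : sin T ≤ 0 := by
      have h3 : 0 ≤ sin (T - π) := sin_nonneg_of_nonneg_of_le_pi (by linarith) (by linarith)
      rw [sin_sub_pi] at h3
      linarith
    have h4 := neg_one_le_cos T
    nlinarith

noncomputable def kk (y : ℝ) : ℝ := (sin y - y * cos y) / sin y ^ 3

lemma kk_deriv {y : ℝ} (h : sin y ≠ 0) :
    HasDerivAt kk ((y * (1 + 2 * cos y ^ 2) - 3 * sin y * cos y) / sin y ^ 4) y := by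
  have h1 : HasDerivAt (fun y : ℝ => sin y - y * cos y) (cos y - (1 * cos y + y * (-sin y))) y :=
    (Real.hasDerivAt_sin y).sub ((hasDerivAt_id y).mul (Real.hasDerivAt_cos y))
  have h2 : HasDerivAt (fun y : ℝ => sin y ^ 3) (3 * sin y ^ 2 * cos y) y := by
    refine ((Real.hasDerivAt_sin y).pow 3).congr_deriv ?_
    norm_num
  have h3 := h1.div h2 (pow_ne_zero 3 h)
  refine h3.congr_deriv ?_
  have hs : sin y ^ 2 = 1 - cos y ^ 2 := by
    have := sin_sq_add_cos_sq y
    linarith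
  have e : (cos y - (1 * cos y + y * -sin y)) * sin y ^ 3 -
      (sin y - y * cos y) * (3 * sin y ^ 2 * cos y) =
      sin y ^ 2 * (y * (1 + 2 * cos y ^ 2) - 3 * sin y * cos y) := by
    have : (cos y - (1 * cos y + y * -sin y)) * sin y ^ 3 -
      (sin y - y * cos y) * (3 * sin y ^ 2 * cos y) =
      sin y ^ 2 * (y * (sin y ^ 2) - 3 * sin y * cos y + 3 * y * cos y ^ 2) := by ring
    rw [this, hs]
    ring
  rw [e]
  field_simp

lemma kk_lt {s t : ℝ} (h0 : 0 < s) (h1 : s < t) (h2 : t < π) : kk s < kk t := by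
  have hm : StrictMonoOn kk (Ioo 0 π) := by
    apply strictMonoOn_of_deriv_pos (convex_Ioo 0 π)
    · intro z hz
      exact (kk_deriv (sin_pos_of_pos_of_lt_pi hz.1 hz.2).ne').continuousAt.continuousWithinAt
    · intro z hz
      rw [interior_Ioo] at hz
      have hsz := sin_pos_of_pos_of_lt_pi hz.1 hz.2
      rw [(kk_deriv hsz.ne').deriv]
      apply div_pos _ (by positivity)
      have h3 := g_pos (T := 2 * z) (by linarith [hz.1]) (by linarith [hz.2])
      rw [cos_two_mul, sin_two_mul] at h3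
      linarith only [h3]
  exact hm ⟨h0, h1.trans h2⟩ ⟨h0.trans h1, h2⟩ h1

/-- `x² (csc² (x α₁) - csc² (x α₂))` -/
noncomputable def GG (α1 α2 x : ℝ) : ℝ := x ^ 2 / sin (x * α1) ^ 2 - x ^ 2 / sin (x * α2) ^ 2

lemma hh_deriv {α x : ℝ} (h : sin (x * α) ≠ 0) :
    HasDerivAt (fun x : ℝ => x ^ 2 / sin (x * α) ^ 2) (2 * x * kk (x * α)) x := by
  have h1 : HasDerivAt (fun x : ℝ => x ^ 2) (2 * x) x := by
    refine ((hasDerivAt_id x).pow 2).congr_deriv ?_
    norm_num
  have h0 : HasDerivAt (fun x : ℝ => x * α) α x := by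
    simpa using (hasDerivAt_id x).mul_const α
  have h2 : HasDerivAt (fun x : ℝ => sin (x * α) ^ 2) (2 * sin (x * α) * (cos (x * α) * α)) x := by
    refine (h0.sin.pow 2).congr_deriv ?_
    norm_num
  have h3 := h1.div h2 (pow_ne_zero 2 h)
  refine h3.congr_deriv ?_
  unfold kk
  field_simp

lemma GG_anti {α1 α2 x y : ℝ} (h1 : 0 < α1) (h2 : α1 < α2) (hx : 0 < x) (hxy : x < y)
    (hy : y * α2 < π) : GG α1 α2 y < GG α1 α2 x := by
  have hα2 : 0 < α2 := h1.trans h2
  have hm : StrictAntiOn (GG α1 α2) (Ioo 0 (π / α2)) := by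
    have key : ∀ z ∈ Ioo (0 : ℝ) (π / α2), 0 < z * α1 ∧ z * α1 < z * α2 ∧ z * α2 < π := by
      intro z hz
      refine ⟨mul_pos hz.1 h1, mul_lt_mul_of_pos_left h2 hz.1, ?_⟩
      have := hz.2
      rwa [lt_div_iff₀ hα2] at this
    have hd : ∀ z ∈ Ioo (0 : ℝ) (π / α2), HasDerivAt (GG α1 α2)
        (2 * z * kk (z * α1) - 2 * z * kk (z * α2)) z := by
      intro z hz
      obtain ⟨k1, k2, k3⟩ := key z hz
      exact (hh_deriv (sin_pos_of_pos_of_lt_pi k1 (k2.trans k3)).ne').sub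
        (hh_deriv (sin_pos_of_pos_of_lt_pi (k1.trans k2) k3).ne')
    apply strictAntiOn_of_deriv_neg (convex_Ioo 0 _)
    · intro z hz
      exact (hd z hz).continuousAt.continuousWithinAt
    · intro z hz
      rw [interior_Ioo] at hz
      rw [(hd z hz).deriv]
      obtain ⟨k1, k2, k3⟩ := key z hz
      have := kk_lt k1 k2 k3
      have hz0 := hz.1
      nlinarith only [h1, k1, this]
  apply hm _ _ hxy
  · exact ⟨hx, by rw [lt_div_iff₀ hα2]; nlinarith⟩
  · exact ⟨hx.trans hxy, by rwa [lt_div_iff₀ hα2]⟩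

lemma alg1 {x S1 S2 : ℝ} (h1 : 0 < S1) (h2 : 0 < S2) :
    x ^ 2 / S1 ^ 2 - x ^ 2 / S2 ^ 2 = x ^ 2 * (2 * S2 ^ 2 - 2 * S1 ^ 2) / (2 * S1 ^ 2 * S2 ^ 2) := by
  field_simp

lemma alg2 {x σ S1 S2 D : ℝ} (h1 : 0 < S1) (h2 : 0 < S2) (hD : 2 * S2 ^ 2 - 2 * S1 ^ 2 = D)
    (hD0 : D ≠ 0) (hx : x ≠ 0) :
    x / 2 * (-σ) / D - x / 2 * (-σ) / (2 * S2 ^ 2) =
      x ^ 3 * (-σ) / (2 * S2 ^ 2) ^ 2 / (x ^ 2 * D / (2 * S1 ^ 2 * S2 ^ 2)) := by
  have e1 : x / 2 * (-σ) / D - x / 2 * (-σ) / (2 * S2 ^ 2) =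
      x / 2 * (-σ) * (2 * S2 ^ 2 - D) / (D * (2 * S2 ^ 2)) := by
    field_simp
    ring
  have e2 : 2 * S2 ^ 2 - D = 2 * S1 ^ 2 := by linarith
  rw [e1, e2]
  field_simp

/-- the formula for the ratio -/
lemma del_formula {b x : ℝ} (hb : b ∈ Ioo (1 : ℝ) 2) (hx : x ∈ Ioo 1 b) :
    0 < GG (π / b - π / 2) (π / 2) x ∧
      Del b x = FA x / GG (π / b - π / 2) (π / 2) x := by
  have hpi := pi_pos
  obtain ⟨hb1, hb2⟩ := hb
  obtain ⟨hx1, hxb⟩ := hx
  have hb0 : 0 < b := by linarith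
  set φ := π / b - π / 2 with hφ
  have hφ0 : 0 < φ := by
    rw [hφ, sub_pos]
    exact div_lt_div_of_pos_left hpi hb0 hb2
  have hφ1 : φ < π / 2 := by
    rw [hφ]
    have : π / b < π := by
      rw [div_lt_iff₀ hb0]
      nlinarith only [hpi, hb1]
    linarith
  have hzb : √(zb b) = sin φ := by
    unfold zb
    rw [sqrt_sq_eq_abs, hφ, sin_sub_pi_div_two, abs_of_neg]
    apply cos_neg_of_pi_div_two_lt_of_lt
    · linarith
    · have : π / b < π := by
        rw [div_lt_iff₀ hb0]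
        nlinarith
      linarith
  have harc : arcsin (√(zb b)) = φ := by
    rw [hzb]
    exact arcsin_sin (by linarith) hφ1.le
  have hzb0 : 0 ≤ zb b := by unfold zb; positivity
  -- the three angles
  have hS2 : 0 < sin (x * (π / 2)) := sin_pos_of_pos_of_lt_pi (by positivity) (by nlinarith only [hpi, hb2, hxb])
  have hxφ : x * φ < π / 2 := by
    have h1 : x * φ < b * φ := mul_lt_mul_of_pos_right hxb hφ0
    have h2 : b * φ = π - b * π / 2 := by
      rw [hφ]
      field_simp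
    nlinarith only [h1, h2, hpi, hb1]
  have hS1 : 0 < sin (x * φ) := sin_pos_of_pos_of_lt_pi (by positivity) (by linarith)
  have hdiff : 0 < cos (2 * x * φ) - cos (x * π) := by
    have h1 : cos (2 * x * φ) - cos (x * π) = 2 * sin (x * π / b) * sin (x * (π - π / b)) := by
      rw [cos_sub_cos]
      have e1 : (2 * x * φ + x * π) / 2 = x * π / b := by rw [hφ]; ring
      have e2 : (2 * x * φ - x * π) / 2 = -(x * (π - π / b)) := by rw [hφ]; ring
      rw [e1, e2, sin_neg]
      ring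
    rw [h1]
    have h2 : 0 < sin (x * π / b) := by
      apply sin_pos_of_pos_of_lt_pi (by positivity)
      rw [div_lt_iff₀ hb0]
      nlinarith only [hpi, hxb]
    have h3 : 0 < sin (x * (π - π / b)) := by
      have h4 : π / b < π := by
        rw [div_lt_iff₀ hb0]
        nlinarith only [hpi, hb1]
      apply sin_pos_of_pos_of_lt_pi (mul_pos (by linarith) (by linarith))
      have h5 : x * (π - π / b) < b * (π - π / b) :=
        mul_lt_mul_of_pos_right hxb (by linarith)
      have h6 : b * (π - π / b) = (b - 1) * π := by field_simp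
      nlinarith only [h5, h6, hpi, hb2]
    positivity
  have hA : 1 - cos (2 * x * φ) = 2 * sin (x * φ) ^ 2 := by
    have : 2 * x * φ = 2 * (x * φ) := by ring
    rw [this, cos_two_mul]
    have := sin_sq_add_cos_sq (x * φ)
    linarith
  have hB : 1 - cos (x * π) = 2 * sin (x * (π / 2)) ^ 2 := by
    have : x * π = 2 * (x * (π / 2)) := by ring
    rw [this, cos_two_mul]
    have := sin_sq_add_cos_sq (x * (π / 2))
    linarith only [this]
  have hx0 : 0 < x := by linarith
  have hdiff2 : cos (2 * x * φ) - cos (x * π) =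
      2 * sin (x * (π / 2)) ^ 2 - 2 * sin (x * φ) ^ 2 := by linarith
  have hG : GG φ (π / 2) x = x ^ 2 * (cos (2 * x * φ) - cos (x * π)) /
      (2 * sin (x * φ) ^ 2 * sin (x * (π / 2)) ^ 2) := by
    unfold GG
    rw [hdiff2]
    exact alg1 hS1 hS2
  have hGpos : 0 < GG φ (π / 2) x := by
    rw [hG]
    positivity
  refine ⟨hGpos, ?_⟩
  unfold Del
  have hFR1 : FR x (zb b) = x / 2 * (-sin (x * π)) / (cos (2 * x * φ) - cos (x * π)) := by
    unfold FR
    rw [if_pos hzb0, harc]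
  have hFR0 : FR x 0 = x / 2 * (-sin (x * π)) / (1 - cos (x * π)) := by
    unfold FR
    rw [if_pos le_rfl, sqrt_zero, arcsin_zero, mul_zero, cos_zero]
  rw [hFR1, hFR0, hG]
  unfold FA CC
  rw [hB, hdiff2]
  have hd2 : 2 * sin (x * (π / 2)) ^ 2 - 2 * sin (x * φ) ^ 2 ≠ 0 := by
    rw [← hdiff2]
    exact hdiff.ne'
  exact alg2 hS1 hS2 rfl hd2 hx0.ne'

theorem mono : MonoStmt := by
  have hFA : ∀ x, x ∈ Ioo (1 : ℝ) 2 → 0 < FA x := by
    intro x hx
    rw [FA_eq]
    have := fA_pos (x := x - 1) ⟨by linarith [hx.1], by linarith [hx.2]⟩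
    have e : 1 + (x - 1) = x := by ring
    rwa [e] at this
  refine ⟨hFA, ?_, ?_⟩
  · intro x y hx hy hxy
    have h1 : x - 1 ∈ Ioo (0 : ℝ) 1 := ⟨by linarith [hx.1], by linarith [hx.2]⟩
    have h2 : y - 1 ∈ Ioo (0 : ℝ) 1 := ⟨by linarith [hy.1], by linarith [hy.2]⟩
    have h3 := LF_strictMono h1 h2 (by linarith)
    have e1 := log_fA h1
    have e2 := log_fA h2
    rw [show 1 + (x - 1) = x by ring, ← FA_eq] at e1
    rw [show 1 + (y - 1) = y by ring, ← FA_eq] at e2
    have h4 : log (FA x) < log (FA y) := by linarith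
    exact (log_lt_log_iff (hFA x hx) (hFA y hy)).mp h4
  · intro b x y hb hx hy hxy
    have hpi := pi_pos
    obtain ⟨g1, d1⟩ := del_formula hb hx
    obtain ⟨g2, d2⟩ := del_formula hb hy
    have hx2 : x ∈ Ioo (1 : ℝ) 2 := ⟨hx.1, hx.2.trans hb.2⟩
    have hy2 : y ∈ Ioo (1 : ℝ) 2 := ⟨hy.1, hy.2.trans hb.2⟩
    have f1 := hFA x hx2
    have f2 := hFA y hy2
    have hb0 : 0 < b := by linarith [hb.1]
    have hφ0 : 0 < π / b - π / 2 := by
      rw [sub_pos]
      exact div_lt_div_of_pos_left hpi hb0 hb.2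
    have hφ1 : π / b - π / 2 < π / 2 := by
      have : π / b < π := by
        rw [div_lt_iff₀ hb0]
        nlinarith only [hpi, hb.1]
      linarith
    refine ⟨by rw [d1]; positivity, ?_⟩
    rw [d1, d2]
    have r1 : FA x / GG (π / b - π / 2) (π / 2) x / FA x = 1 / GG (π / b - π / 2) (π / 2) x := by
      field_simp
    have r2 : FA y / GG (π / b - π / 2) (π / 2) y / FA y = 1 / GG (π / b - π / 2) (π / 2) y := by
      field_simp
    rw [r1, r2]
    exact one_div_lt_one_div_of_lt g2 (GG_anti hφ0 hφ1 (by linarith only [hx.1]) hxy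
      (by nlinarith only [hpi, hy2.2]))

end Pool.Agent.XQ.U.H47
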