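import Pool.Agent.Helper35_XQ.Stmt
import Pool.Agent.Helper41_TRI.Ker

/-!
Squad XQ (MP_5b0138_an), Part A2, module GI_CHN (helper47): loops cut into `2 ^ q` blocks.
-/

set_option autoImplicit false

namespace Pool.Agent.XQ.GI.H47

open MeasureTheory Complex Filter Topology Pool.Agent.H62T Pool.Agent.H60K
open scoped ENNReal NNReal

/-- kernel with values in `ℝ≥0∞` -/
noncomputable def kk (u : Fin 3 → ℂ) (h : Fin 3 → ℝ) (a : ℝ) (f : Lb) (x y : ℂ) : ℝ≥0∞ :=
  ENNReal.ofReal (KO u h f a x y)

/-- kernel of chains with `m + 1` blocks -/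
noncomputable def CK (k : Lb → ℂ → ℂ → ℝ≥0∞) : ℕ → Lb → ℂ → ℂ → ℝ≥0∞
  | 0, f, x, y => k f x y
  | m + 1, f, x, y => ∑ f₁ : Lb, ∑ f₂ : Lb, if f = (fun w => f₂ (f₁ w)) then
      ∫⁻ z, k f₁ x z * CK k m f₂ z y else 0

theorem CK_meas (k : Lb → ℂ → ℂ → ℝ≥0∞) (hk : ∀ f, Measurable fun p : ℂ × ℂ => k f p.1 p.2)
    (m : ℕ) : ∀ f, Measurable fun p : ℂ × ℂ => CK k m f p.1 p.2 := by
  induction m with
  | zero => exact hk
  | succ m ih =>
    intro f
    show Measurable fun p : ℂ × ℂ => ∑ f₁ : Lb, ∑ f₂ : Lb, if f = (fun w => f₂ (f₁ w)) then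
      ∫⁻ z, k f₁ p.1 z * CK k m f₂ z p.2 else 0
    refine Finset.measurable_sum _ fun f₁ _ => Finset.measurable_sum _ fun f₂ _ => ?_
    split_ifs
    · have h1 : Measurable fun q : (ℂ × ℂ) × ℂ => k f₁ q.1.1 q.2 * CK k m f₂ q.2 q.1.2 := by
        refine Measurable.mul ?_ ?_
        · exact (hk f₁).comp ((measurable_fst.comp measurable_fst).prodMk measurable_snd)
        · exact (ih f₂).comp (measurable_snd.prodMk (measurable_snd.comp measurable_fst))
      exact h1.lintegral_prod_right'
    · exact measurable_const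

theorem meas_r {F : ℂ → ℂ → ℝ≥0∞} (hF : Measurable fun p : ℂ × ℂ => F p.1 p.2) (x : ℂ) :
    Measurable fun y => F x y := hF.comp (measurable_const.prodMk measurable_id)

theorem meas_l {F : ℂ → ℂ → ℝ≥0∞} (hF : Measurable fun p : ℂ × ℂ => F p.1 p.2) (y : ℂ) :
    Measurable fun x => F x y := hF.comp (measurable_id.prodMk measurable_const)

/-- associativity -/
theorem CK_add (k : Lb → ℂ → ℂ → ℝ≥0∞) (hk : ∀ f, Measurable fun p : ℂ × ℂ => k f p.1 p.2)
    (m' : ℕ) (m : ℕ) : ∀ (f : Lb) (x y : ℂ), CK k (m + m' + 1) f x y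
      = ∑ f₁ : Lb, ∑ f₂ : Lb, if f = (fun w => f₂ (f₁ w)) then
        ∫⁻ z, CK k m f₁ x z * CK k m' f₂ z y else 0 := by
  induction m with
  | zero =>
    intro f x y
    rw [Nat.zero_add]
    rfl
  | succ m ih =>
    intro f x y
    have e0 : m + 1 + m' + 1 = (m + m' + 1) + 1 := by ring
    rw [e0]
    -- the triple sum
    have L : CK k ((m + m' + 1) + 1) f x y = ∑ g : Lb, ∑ h₁ : Lb, ∑ h₂ : Lb,
        if f = (fun w => h₂ (h₁ (g w))) then
          ∫⁻ v, k g x v * ∫⁻ z, CK k m h₁ v z * CK k m' h₂ z y else 0 := by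
      show (∑ g : Lb, ∑ g₂ : Lb, if f = (fun w => g₂ (g w)) then
        ∫⁻ v, k g x v * CK k (m + m' + 1) g₂ v y else 0) = _
      refine Finset.sum_congr rfl fun g _ => ?_
      have e1 : ∀ g₂ : Lb, (if f = (fun w => g₂ (g w)) then
          ∫⁻ v, k g x v * CK k (m + m' + 1) g₂ v y else 0)
          = ∑ h₁ : Lb, ∑ h₂ : Lb, if g₂ = (fun w => h₂ (h₁ w)) then
            (if f = (fun w => h₂ (h₁ (g w))) then
              ∫⁻ v, k g x v * ∫⁻ z, CK k m h₁ v z * CK k m' h₂ z y else 0) else 0 := by
        intro g₂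
        have e2 : ∫⁻ v, k g x v * CK k (m + m' + 1) g₂ v y
            = ∑ h₁ : Lb, ∑ h₂ : Lb, if g₂ = (fun w => h₂ (h₁ w)) then
              ∫⁻ v, k g x v * ∫⁻ z, CK k m h₁ v z * CK k m' h₂ z y else 0 := by
          have e3 : ∀ v, k g x v * CK k (m + m' + 1) g₂ v y = ∑ h₁ : Lb, ∑ h₂ : Lb,
              if g₂ = (fun w => h₂ (h₁ w)) then
                k g x v * ∫⁻ z, CK k m h₁ v z * CK k m' h₂ z y else 0 := by
            intro v
            rw [ih g₂ v y, Finset.mul_sum]
            refine Finset.sum_congr rfl fun h₁ _ => ?_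
            rw [Finset.mul_sum]
            refine Finset.sum_congr rfl fun h₂ _ => ?_
            rw [mul_ite, mul_zero]
          simp only [e3]
          have hm : ∀ h₁ h₂ : Lb, Measurable fun v =>
              k g x v * ∫⁻ z, CK k m h₁ v z * CK k m' h₂ z y := by
            intro h₁ h₂
            refine (meas_r (hk g) x).mul ?_
            have h1 : Measurable fun q : ℂ × ℂ => CK k m h₁ q.1 q.2 * CK k m' h₂ q.2 y :=
              (CK_meas k hk m h₁).mul ((meas_l (CK_meas k hk m' h₂) y).comp measurable_snd)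
            exact h1.lintegral_prod_right'
          rw [lintegral_finsetSum]
          · refine Finset.sum_congr rfl fun h₁ _ => ?_
            rw [lintegral_finsetSum]
            · refine Finset.sum_congr rfl fun h₂ _ => ?_
              split_ifs
              · rfl
              · exact lintegral_zero
            · intro h₂ _
              split_ifs
              · exact hm h₁ h₂
              · exact measurable_const
          · intro h₁ _
            refine Finset.measurable_sum _ fun h₂ _ => ?_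
            split_ifs
            · exact hm h₁ h₂
            · exact measurable_const
        by_cases hf : f = (fun w => g₂ (g w))
        · rw [if_pos hf, e2]
          refine Finset.sum_congr rfl fun h₁ _ => Finset.sum_congr rfl fun h₂ _ => ?_
          by_cases hg : g₂ = (fun w => h₂ (h₁ w))
          · rw [if_pos hg, if_pos hg, if_pos (by rw [hf, hg])]
          · rw [if_neg hg, if_neg hg]
        · rw [if_neg hf]
          symm
          refine Finset.sum_eq_zero fun h₁ _ => Finset.sum_eq_zero fun h₂ _ => ?_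
          by_cases hg : g₂ = (fun w => h₂ (h₁ w))
          · rw [if_pos hg, if_neg]
            intro hf'
            apply hf
            rw [hf', hg]
          · rw [if_neg hg]
      simp only [e1]
      rw [Finset.sum_comm]
      refine Finset.sum_congr rfl fun h₁ _ => ?_
      rw [Finset.sum_comm]
      refine Finset.sum_congr rfl fun h₂ _ => ?_
      rw [Finset.sum_ite_eq']
      rw [if_pos (Finset.mem_univ _)]
    have R : (∑ f₁ : Lb, ∑ f₂ : Lb, if f = (fun w => f₂ (f₁ w)) then
        ∫⁻ z, CK k (m + 1) f₁ x z * CK k m' f₂ z y else 0)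
        = ∑ g : Lb, ∑ h₁ : Lb, ∑ h₂ : Lb, if f = (fun w => h₂ (h₁ (g w))) then
          ∫⁻ v, k g x v * ∫⁻ z, CK k m h₁ v z * CK k m' h₂ z y else 0 := by
      have e1 : ∀ f₁ f₂ : Lb, (if f = (fun w => f₂ (f₁ w)) then
          ∫⁻ z, CK k (m + 1) f₁ x z * CK k m' f₂ z y else 0)
          = ∑ g : Lb, ∑ h₁ : Lb, if f₁ = (fun w => h₁ (g w)) then
            (if f = (fun w => f₂ (h₁ (g w))) then
              ∫⁻ v, k g x v * ∫⁻ z, CK k m h₁ v z * CK k m' f₂ z y else 0) else 0 := by
        intro f₁ f₂
        have e2 : ∫⁻ z, CK k (m + 1) f₁ x z * CK k m' f₂ z y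
            = ∑ g : Lb, ∑ h₁ : Lb, if f₁ = (fun w => h₁ (g w)) then
              ∫⁻ v, k g x v * ∫⁻ z, CK k m h₁ v z * CK k m' f₂ z y else 0 := by
          have e3 : ∀ z, CK k (m + 1) f₁ x z * CK k m' f₂ z y = ∑ g : Lb, ∑ h₁ : Lb,
              if f₁ = (fun w => h₁ (g w)) then
                ∫⁻ v, k g x v * (CK k m h₁ v z * CK k m' f₂ z y) else 0 := by
            intro z
            show (∑ g : Lb, ∑ h₁ : Lb, if f₁ = (fun w => h₁ (g w)) then
              ∫⁻ v, k g x v * CK k m h₁ v z else 0) * CK k m' f₂ z y = _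
            rw [Finset.sum_mul]
            refine Finset.sum_congr rfl fun g _ => ?_
            rw [Finset.sum_mul]
            refine Finset.sum_congr rfl fun h₁ _ => ?_
            rw [ite_mul, zero_mul]
            refine if_congr Iff.rfl ?_ rfl
            rw [← lintegral_mul_const]
            · refine lintegral_congr fun v => ?_
              rw [mul_assoc]
            · exact (meas_r (hk g) x).mul (meas_l (CK_meas k hk m h₁) z)
          simp only [e3]
          have hm2 : ∀ g h₁ : Lb, Measurable fun q : ℂ × ℂ =>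
              k g x q.2 * (CK k m h₁ q.2 q.1 * CK k m' f₂ q.1 y) := by
            intro g h₁
            refine Measurable.mul ((meas_r (hk g) x).comp measurable_snd) (Measurable.mul ?_ ?_)
            · exact (CK_meas k hk m h₁).comp (measurable_snd.prodMk measurable_fst)
            · exact (meas_l (CK_meas k hk m' f₂) y).comp measurable_fst
          have hm : ∀ g h₁ : Lb, Measurable fun z =>
              ∫⁻ v, k g x v * (CK k m h₁ v z * CK k m' f₂ z y) := fun g h₁ =>
            (hm2 g h₁).lintegral_prod_right'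
          rw [lintegral_finsetSum]
          · refine Finset.sum_congr rfl fun g _ => ?_
            rw [lintegral_finsetSum]
            · refine Finset.sum_congr rfl fun h₁ _ => ?_
              split_ifs
              · rw [lintegral_lintegral_swap (hm2 g h₁).aemeasurable]
                refine lintegral_congr fun v => ?_
                rw [lintegral_const_mul]
                exact (meas_r (CK_meas k hk m h₁) v).mul (meas_l (CK_meas k hk m' f₂) y)
              · exact lintegral_zero
            · intro h₁ _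
              split_ifs
              · exact hm g h₁
              · exact measurable_const
          · intro g _
            refine Finset.measurable_sum _ fun h₁ _ => ?_
            split_ifs
            · exact hm g h₁
            · exact measurable_const
        by_cases hf : f = (fun w => f₂ (f₁ w))
        · rw [if_pos hf, e2]
          refine Finset.sum_congr rfl fun g _ => Finset.sum_congr rfl fun h₁ _ => ?_
          by_cases hg : f₁ = (fun w => h₁ (g w))
          · rw [if_pos hg, if_pos hg, if_pos (by rw [hf, hg])]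
          · rw [if_neg hg, if_neg hg]
        · rw [if_neg hf]
          symm
          refine Finset.sum_eq_zero fun g _ => Finset.sum_eq_zero fun h₁ _ => ?_
          by_cases hg : f₁ = (fun w => h₁ (g w))
          · rw [if_pos hg, if_neg]
            intro hf'
            apply hf
            rw [hf', hg]
          · rw [if_neg hg]
      simp only [e1]
      rw [Finset.sum_comm]
      -- sum over f₂ outside
      have e4 : ∀ f₂ : Lb, (∑ f₁ : Lb, ∑ g : Lb, ∑ h₁ : Lb, if f₁ = (fun w => h₁ (g w)) then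
            (if f = (fun w => f₂ (h₁ (g w))) then
              ∫⁻ v, k g x v * ∫⁻ z, CK k m h₁ v z * CK k m' f₂ z y else 0) else 0)
          = ∑ g : Lb, ∑ h₁ : Lb, if f = (fun w => f₂ (h₁ (g w))) then
              ∫⁻ v, k g x v * ∫⁻ z, CK k m h₁ v z * CK k m' f₂ z y else 0 := by
        intro f₂
        rw [Finset.sum_comm]
        refine Finset.sum_congr rfl fun g _ => ?_
        rw [Finset.sum_comm]
        refine Finset.sum_congr rfl fun h₁ _ => ?_
        rw [Finset.sum_ite_eq']
        rw [if_pos (Finset.mem_univ _)]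
      simp only [e4]
      rw [Finset.sum_comm]
      refine Finset.sum_congr rfl fun g _ => ?_
      rw [Finset.sum_comm]
    rw [L, R]

/-- doubling -/
theorem KO_CK (hord : OrdStatement) (u : Fin 3 → ℂ) (h : Fin 3 → ℝ) (hu : ∀ s, ‖u s‖ = 1) (a : ℝ)
    (ha : 0 < a) (q : ℕ) : ∀ (m : ℕ), m + 1 = 2 ^ q → ∀ (f : Lb) (x y : ℂ),
    ENNReal.ofReal (KO u h f ((m + 1 : ℕ) * a) x y) = CK (kk u h a) m f x y := by
  have hO := hord u h hu
  have hk : ∀ f, Measurable fun p : ℂ × ℂ => kk u h a f p.1 p.2 := by
    intro f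
    unfold kk
    refine ENNReal.measurable_ofReal.comp ?_
    exact (hO.1 f).comp (measurable_const.prodMk measurable_id)
  have hle : ∀ (s : ℝ), 0 < s → ∀ f x y, KO u h f s x y ≤ G s (x - y) := by
    intro s hs f x y
    obtain ⟨-, o2, -, o4, -⟩ := hO.2 s x y hs
    rw [← o4]
    exact Finset.single_le_sum (f := fun f => KO u h f s x y) (fun g _ => o2 g)
      (Finset.mem_univ f)
  induction q with
  | zero =>
    intro m hm f x y
    have hm0 : m = 0 := by simpa using hm
    subst hm0
    show ENNReal.ofReal (KO u h f ((0 + 1 : ℕ) * a) x y) = ENNReal.ofReal (KO u h f a x y)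
    congr 2
    simp
  | succ q ih =>
    intro m hm f x y
    obtain ⟨m', hm'⟩ : ∃ m', m' + 1 = 2 ^ q :=
      ⟨2 ^ q - 1, Nat.sub_add_cancel Nat.one_le_two_pow⟩
    have hmm : m = m' + m' + 1 := by rw [pow_succ] at hm; omega
    subst hmm
    have hs : 0 < ((m' + 1 : ℕ) : ℝ) * a := by positivity
    have ht : 0 < ((m' + m' + 1 + 1 : ℕ) : ℝ) * a := by positivity
    have hhalf : ((m' + m' + 1 + 1 : ℕ) : ℝ) * a / 2 = ((m' + 1 : ℕ) : ℝ) * a := by
      push_cast; ring
    rw [CK_add _ hk]
    obtain ⟨-, -, -, -, o5, -⟩ := hO.2 _ x y ht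
    rw [o5 f, hhalf]
    have hnn : ∀ s z w g, 0 < s → 0 ≤ KO u h g s z w := fun s z w g hs' =>
      (hO.2 s z w hs').2.1 g
    have hi : ∀ f₁ f₂ : Lb, 0 ≤ ∫ z, KO u h f₁ (((m' + 1 : ℕ) : ℝ) * a) x z
        * KO u h f₂ (((m' + 1 : ℕ) : ℝ) * a) z y := fun f₁ f₂ =>
      integral_nonneg fun z => mul_nonneg (hnn _ _ _ _ hs) (hnn _ _ _ _ hs)
    have hn : ∀ f₁ f₂ : Lb, 0 ≤ if f = (fun w => f₂ (f₁ w)) then
        ∫ z, KO u h f₁ (((m' + 1 : ℕ) : ℝ) * a) x z
          * KO u h f₂ (((m' + 1 : ℕ) : ℝ) * a) z y else 0 := by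
      intro f₁ f₂
      split_ifs
      · exact hi f₁ f₂
      · exact le_rfl
    rw [ENNReal.ofReal_sum_of_nonneg fun f₁ _ => Finset.sum_nonneg fun f₂ _ => hn f₁ f₂]
    refine Finset.sum_congr rfl fun f₁ _ => ?_
    rw [ENNReal.ofReal_sum_of_nonneg fun f₂ _ => hn f₁ f₂]
    refine Finset.sum_congr rfl fun f₂ _ => ?_
    split_ifs
    · rw [ofReal_integral_eq_lintegral_ofReal]
      · refine lintegral_congr fun z => ?_
        rw [ENNReal.ofReal_mul (hnn _ _ _ _ hs), ih m' hm' f₁ x z, ih m' hm' f₂ z y]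
      · refine (H41.G_integrable (((m' + 1 : ℕ) : ℝ) * a) hs x y).mono' ?_
          (Eventually.of_forall fun z => ?_)
        · refine Measurable.aestronglyMeasurable (Measurable.mul ?_ ?_)
          · exact (hO.1 f₁).comp (measurable_const.prodMk (measurable_const.prodMk measurable_id))
          · exact (hO.1 f₂).comp (measurable_const.prodMk (measurable_id.prodMk measurable_const))
        · rw [Real.norm_of_nonneg (mul_nonneg (hnn _ _ _ _ hs) (hnn _ _ _ _ hs))]
          exact mul_le_mul (hle _ hs _ _ _) (hle _ hs _ _ _) (hnn _ _ _ _ hs)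
            (H41.G_nonneg hs _)
      · exact Eventually.of_forall fun z => mul_nonneg (hnn _ _ _ _ hs) (hnn _ _ _ _ hs)
    · exact ENNReal.ofReal_zero

/-! ### Unrolling -/

theorem lint_cons {m : ℕ} (F : (Fin (m + 1) → ℂ) → ℝ≥0∞) (hF : Measurable F) :
    ∫⁻ z, F z = ∫⁻ z0 : ℂ, ∫⁻ z : Fin m → ℂ, F (Fin.cons z0 z) := by
  have hp := (volume_preserving_piFinSuccAbove (fun _ : Fin (m + 1) => ℂ) 0).symm
  rw [← hp.lintegral_comp_emb (MeasurableEquiv.measurableEmbedding _), Measure.volume_eq_prod,
    lintegral_prod]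
  · refine lintegral_congr fun z0 => lintegral_congr fun z => ?_
    congr 1
    show (Fin.insertNth (α := fun _ => ℂ) 0 z0 z : Fin (m + 1) → ℂ) = Fin.cons z0 z
    rw [Fin.insertNth_zero]
    rfl
  · exact (hF.comp (MeasurableEquiv.measurable _)).aemeasurable

theorem sum_cons {m : ℕ} {β : Type} [AddCommMonoid β] (f : (Fin (m + 1) → Lb) → β) :
    ∑ A, f A = ∑ a, ∑ A : Fin m → Lb, f (Fin.cons a A) := by
  rw [← Fintype.sum_prod_type' (f := fun a A => f (Fin.cons a A))]
  symm
  exact Equiv.sum_comp (Fin.consEquiv fun _ : Fin (m + 1) => Lb) f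

theorem cp_cons {n : ℕ} (a : Lb) (A : Fin n → Lb) :
    cp (Fin.cons a A : Fin (n + 1) → Lb) = fun w => cp A (a w) := by
  funext w
  unfold cp
  rw [List.ofFn_succ]
  simp

/-- weight of a chain -/
noncomputable def cw (k : Lb → ℂ → ℂ → ℝ≥0∞) {m : ℕ} (A : Fin (m + 1) → Lb) (x : ℂ)
    (z : Fin m → ℂ) (y : ℂ) : ℝ≥0∞ :=
  ∏ j, k (A j) ((Fin.cons x z : Fin (m + 1) → ℂ) j) ((Fin.snoc z y : Fin (m + 1) → ℂ) j)

theorem cw_meas (k : Lb → ℂ → ℂ → ℝ≥0∞) (hk : ∀ f, Measurable fun p : ℂ × ℂ => k f p.1 p.2)
    {m : ℕ} (A : Fin (m + 1) → Lb) :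
    Measurable fun p : ℂ × (Fin m → ℂ) × ℂ => cw k A p.1 p.2.1 p.2.2 := by
  unfold cw
  refine Finset.measurable_fun_prod _ fun j _ => ?_
  have h1 : Measurable fun p : ℂ × (Fin m → ℂ) × ℂ =>
      (Fin.cons p.1 p.2.1 : Fin (m + 1) → ℂ) j := by
    refine Fin.cases ?_ (fun i => ?_) j
    · simp only [Fin.cons_zero]
      fun_prop
    · simp only [Fin.cons_succ]
      fun_prop
  have h2 : Measurable fun p : ℂ × (Fin m → ℂ) × ℂ =>
      (Fin.snoc p.2.1 p.2.2 : Fin (m + 1) → ℂ) j := by
    refine Fin.lastCases ?_ (fun i => ?_) j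
    · simp only [Fin.snoc_last]
      fun_prop
    · simp only [Fin.snoc_castSucc]
      fun_prop
  exact (hk (A j)).comp (h1.prodMk h2)

theorem cw_meas_comp (k : Lb → ℂ → ℂ → ℝ≥0∞)
    (hk : ∀ f, Measurable fun p : ℂ × ℂ => k f p.1 p.2) {α : Type*} [MeasurableSpace α] {m : ℕ}
    (A : Fin (m + 1) → Lb) {f g : α → ℂ} {z : α → Fin m → ℂ} (hf : Measurable f)
    (hz : Measurable z) (hg : Measurable g) : Measurable fun a => cw k A (f a) (z a) (g a) := by
  have := Measurable.comp (g := fun p : ℂ × (Fin m → ℂ) × ℂ => cw k A p.1 p.2.1 p.2.2)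
    (f := fun a => (f a, z a, g a)) (cw_meas k hk A) (hf.prodMk (hz.prodMk hg))
  exact this

theorem cw_succ (k : Lb → ℂ → ℂ → ℝ≥0∞) {m : ℕ} (a : Lb)
    (A : Fin (m + 1) → Lb) (x z0 : ℂ) (z : Fin m → ℂ) (y : ℂ) :
    cw k (Fin.cons a A : Fin (m + 2) → Lb) x (Fin.cons z0 z) y = k a x z0 * cw k A z0 z y := by
  unfold cw
  rw [Fin.prod_univ_succ]
  congr 1
  · have e : (Fin.snoc (Fin.cons z0 z : Fin (m + 1) → ℂ) y : Fin (m + 2) → ℂ)
        = Fin.cons z0 (Fin.snoc z y : Fin (m + 1) → ℂ) :=
      (Fin.cons_snoc_eq_snoc_cons z0 z y).symm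
    rw [e]
    simp

/-- kernels of chains as sums -/
theorem CK_sum (k : Lb → ℂ → ℂ → ℝ≥0∞) (hk : ∀ f, Measurable fun p : ℂ × ℂ => k f p.1 p.2)
    (m : ℕ) : ∀ (f : Lb) (x y : ℂ), CK k m f x y
      = ∑ A : Fin (m + 1) → Lb, if f = cp A then ∫⁻ z : Fin m → ℂ, cw k A x z y else 0 := by
  induction m with
  | zero =>
    intro f x y
    have e1 : ∀ A : Fin 1 → Lb, cp A = A 0 := by
      intro A
      funext w
      simp [cp]
    have e2 : ∀ A : Fin 1 → Lb, ∫⁻ z : Fin 0 → ℂ, cw k A x z y = k (A 0) x y := by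
      intro A
      rw [lintegral_unique]
      unfold cw
      have hv : volume (Set.univ : Set (Fin 0 → ℂ)) = 1 := by
        rw [Measure.volume_pi_eq_dirac default]
        simp
      rw [hv, mul_one]
      simp [Fin.snoc]
    simp only [e1, e2]
    rw [sum_cons]
    simp only [Fin.cons_zero, Finset.sum_const, Finset.card_univ, Fintype.card_unique, one_smul,
      Finset.sum_ite_eq, Finset.mem_univ, if_true]
    rfl
  | succ m ih =>
    intro f x y
    rw [sum_cons]
    show (∑ f₁ : Lb, ∑ f₂ : Lb, if f = (fun w => f₂ (f₁ w)) then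
      ∫⁻ z, k f₁ x z * CK k m f₂ z y else 0) = _
    refine Finset.sum_congr rfl fun f₁ _ => ?_
    have e1 : ∀ f₂, ∫⁻ z, k f₁ x z * CK k m f₂ z y
        = ∑ A : Fin (m + 1) → Lb, if f₂ = cp A then
          ∫⁻ z : Fin (m + 1) → ℂ, cw k (Fin.cons f₁ A : Fin (m + 2) → Lb) x z y else 0 := by
      intro f₂
      have e2 : ∀ z, k f₁ x z * CK k m f₂ z y
          = ∑ A : Fin (m + 1) → Lb, if f₂ = cp A then
            ∫⁻ z' : Fin m → ℂ, cw k (Fin.cons f₁ A : Fin (m + 2) → Lb) x (Fin.cons z z') y
              else 0 := by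
        intro z
        rw [ih f₂ z y, Finset.mul_sum]
        refine Finset.sum_congr rfl fun A _ => ?_
        rw [mul_ite, mul_zero]
        refine if_congr Iff.rfl ?_ rfl
        rw [← lintegral_const_mul]
        · exact lintegral_congr fun z' => (cw_succ k f₁ A x z z' y).symm
        · exact cw_meas_comp k hk A measurable_const measurable_id measurable_const
      simp only [e2]
      rw [lintegral_finsetSum]
      · refine Finset.sum_congr rfl fun A _ => ?_
        split_ifs
        · rw [lint_cons]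
          exact cw_meas_comp k hk _ measurable_const measurable_id measurable_const
        · exact lintegral_zero
      · intro A _
        split_ifs
        · have hm : Measurable fun p : ℂ × (Fin m → ℂ) =>
              cw k (Fin.cons f₁ A : Fin (m + 2) → Lb) x (Fin.cons p.1 p.2) y := by
            have h1 : Measurable fun p : ℂ × (Fin m → ℂ) =>
                (Fin.cons p.1 p.2 : Fin (m + 1) → ℂ) := by
              rw [measurable_pi_iff]
              intro j
              refine Fin.cases ?_ (fun i => ?_) j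
              · simp only [Fin.cons_zero]
                fun_prop
              · simp only [Fin.cons_succ]
                fun_prop
            exact cw_meas_comp k hk _ measurable_const h1 measurable_const
          exact hm.lintegral_prod_right'
        · exact measurable_const
    have e3 : ∀ f₂, (if f = (fun w => f₂ (f₁ w)) then ∫⁻ z, k f₁ x z * CK k m f₂ z y else 0)
        = ∑ A : Fin (m + 1) → Lb, if f₂ = cp A then
          (if f = cp (Fin.cons f₁ A : Fin (m + 2) → Lb) then
            ∫⁻ z : Fin (m + 1) → ℂ, cw k (Fin.cons f₁ A : Fin (m + 2) → Lb) x z y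
              else 0) else 0 := by
      intro f₂
      by_cases hf : f = (fun w => f₂ (f₁ w))
      · rw [if_pos hf, e1 f₂]
        refine Finset.sum_congr rfl fun A _ => ?_
        by_cases hg : f₂ = cp A
        · rw [if_pos hg, if_pos hg, if_pos]
          rw [cp_cons, hf, hg]
        · rw [if_neg hg, if_neg hg]
      · rw [if_neg hf]
        symm
        refine Finset.sum_eq_zero fun A _ => ?_
        by_cases hg : f₂ = cp A
        · rw [if_pos hg, if_neg]
          intro hf'
          apply hf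
          rw [hf', cp_cons, hg]
        · rw [if_neg hg]
    simp only [e3]
    rw [Finset.sum_comm]
    refine Finset.sum_congr rfl fun A _ => ?_
    rw [Finset.sum_ite_eq', if_pos (Finset.mem_univ _)]

/-- a cyclic chain -/
theorem cw_cyc (hord : OrdStatement) (u : Fin 3 → ℂ) (h : Fin 3 → ℝ) (hu : ∀ s, ‖u s‖ = 1) (a : ℝ)
    (ha : 0 < a) {m : ℕ} (A : Fin (m + 1) → Lb) (x : ℂ) (z : Fin m → ℂ) :
    cw (kk u h a) A x z x
      = ENNReal.ofReal (wO u h a (Fin.cons x z : Fin (m + 1) → ℂ) A) := by
  unfold cw wO kk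
  rw [ENNReal.ofReal_prod_of_nonneg fun j _ => ((hord u h hu).2 a _ _ ha).2.1 _]
  refine Finset.prod_congr rfl fun j _ => ?_
  congr 2
  refine Fin.lastCases ?_ (fun i => ?_) j
  · rw [Fin.snoc_last, Fin.last_add_one, Fin.cons_zero]
  · rw [Fin.snoc_castSucc, Fin.coeSucc_eq_succ, Fin.cons_succ]

open Classical in
/-- module CHN -/
theorem chn (hord : OrdStatement) : ChnStatement := by
  intro u h hu q n hn0 hn P t ht
  obtain ⟨m, rfl⟩ : ∃ m, n = m + 1 := Nat.exists_eq_succ_of_ne_zero (NeZero.ne n)
  have hm1 : (0 : ℝ) < ((m + 1 : ℕ) : ℝ) := by positivity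
  set a : ℝ := t / ((m + 1 : ℕ) : ℝ) with had
  have ha : 0 < a := by positivity
  have hta : t = ((m + 1 : ℕ) : ℝ) * a := by rw [had]; field_simp
  have hO := hord u h hu
  have hk : ∀ f, Measurable fun p : ℂ × ℂ => kk u h a f p.1 p.2 := by
    intro f
    unfold kk
    refine ENNReal.measurable_ofReal.comp ?_
    exact (hO.1 f).comp (measurable_const.prodMk measurable_id)
  have e1 : ∀ x, ENNReal.ofReal (∑ f : Lb, if P f then KO u h f t x x else 0)
      = ∑ A : Fin (m + 1) → Lb, if P (cp A) then
        ∫⁻ z : Fin m → ℂ, cw (kk u h a) A x z x else 0 := by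
    intro x
    rw [ENNReal.ofReal_sum_of_nonneg]
    · have e2 : ∀ f : Lb, ENNReal.ofReal (if P f then KO u h f t x x else 0)
          = ∑ A : Fin (m + 1) → Lb, if f = cp A then
            (if P (cp A) then ∫⁻ z : Fin m → ℂ, cw (kk u h a) A x z x else 0) else 0 := by
        intro f
        by_cases hP : P f
        · rw [if_pos hP, hta, KO_CK hord u h hu a ha q m hn f x x, CK_sum _ hk]
          refine Finset.sum_congr rfl fun A _ => ?_
          by_cases hf : f = cp A
          · rw [if_pos hf, if_pos hf, if_pos (hf ▸ hP)]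
          · rw [if_neg hf, if_neg hf]
        · rw [if_neg hP, ENNReal.ofReal_zero]
          symm
          refine Finset.sum_eq_zero fun A _ => ?_
          by_cases hf : f = cp A
          · rw [if_pos hf, if_neg (hf ▸ hP)]
          · rw [if_neg hf]
      simp only [e2]
      rw [Finset.sum_comm]
      refine Finset.sum_congr rfl fun A _ => ?_
      rw [Finset.sum_ite_eq', if_pos (Finset.mem_univ _)]
    · intro f _
      split_ifs
      · exact (hO.2 t x x ht).2.1 f
      · exact le_rfl
  unfold LM MO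
  have e3 : ∀ x, ENNReal.ofReal (∑ f : Lb, if P f then KO u h f t x x else 0)
      = ∑ A : Fin (m + 1) → Lb, if P (cp A) then
        ∫⁻ z : Fin m → ℂ, cw (kk u h a) A x z x else 0 := e1
  rw [lintegral_congr e3, lintegral_finsetSum]
  · refine Finset.sum_congr rfl fun A _ => ?_
    by_cases hV : P (cp A)
    · simp only [if_pos hV]
      rw [lint_cons (fun x => ENNReal.ofReal (wO u h a x A))]
      · exact lintegral_congr fun x => lintegral_congr fun z => cw_cyc hord u h hu a ha A x z
      · refine ENNReal.measurable_ofReal.comp ?_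
        unfold wO
        refine Finset.measurable_fun_prod _ fun j _ => ?_
        have h1 : Measurable fun x : Fin (m + 1) → ℂ => ((a, x j, x (j + 1)) : ℝ × ℂ × ℂ) := by
          fun_prop
        exact (hO.1 (A j)).comp h1
    · simp only [if_neg hV, lintegral_zero]
  · intro A _
    split_ifs
    · have hm : Measurable fun p : ℂ × (Fin m → ℂ) => cw (kk u h a) A p.1 p.2 p.1 :=
        cw_meas_comp _ hk A measurable_fst measurable_snd measurable_fst
      exact hm.lintegral_prod_right'
    · exact measurable_const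

end Pool.Agent.XQ.GI.H47
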