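import Pool.Agent.Helper35_XQ.Stmt
import Pool.Agent.Helper69_AEU3.Geo

/-!
Squad XQ (MP_5b0138_an), Part A2, module GI_LCI (helper47): a loop which visits all sides is not
short and not far away.
-/

set_option autoImplicit false

namespace Pool.Agent.XQ.GI.H47

open MeasureTheory Complex Filter Topology Pool.Agent.H62T Pool.Agent.H60K Pool.Agent.H60K.H69
open scoped ENNReal NNReal

theorem norm_uI (α : ℝ) (s : Fin 3) : ‖uI α s‖ = 1 := by
  have h := Real.sin_sq_add_cos_sq α
  have key : ∀ z : ℂ, z.re * z.re + z.im * z.im = 1 → ‖z‖ = 1 := by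
    intro z hz
    have h1 : ‖z‖ ^ 2 = 1 := by
      rw [Complex.sq_norm, Complex.normSq_apply]; exact hz
    have h2 := norm_nonneg z
    nlinarith
  apply key
  unfold uI
  split_ifs
  · show -Real.sin α * -Real.sin α + Real.cos α * Real.cos α = 1
    nlinarith
  · show (0 : ℝ) * 0 + (-1) * (-1) = 1
    norm_num
  · show Real.sin α * Real.sin α + Real.cos α * Real.cos α = 1
    nlinarith

theorem lci : LciStatement := by
  intro α b ha0 ha1 hb
  have hS : 0 < Real.sin α := Real.sin_pos_of_pos_of_lt_pi ha0 (by linarith [Real.pi_pos])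
  have hC : 0 < Real.cos α := Real.cos_pos_of_mem_Ioo ⟨by linarith [Real.pi_pos], ha1⟩
  have hC1 : Real.cos α ≤ 1 := Real.cos_le_one _
  refine ⟨4 / Real.sin α + 2 / Real.cos α + 8 / (b * Real.sin α), by positivity, ?_⟩
  intro n _ x B hV _
  set c : Fin n → ℝ := fun j => bl (uI α) (hI α b) (B j) (x j) (x (j + 1)) with hc
  have hnb : ∀ j, ‖x j - x (j + 1)‖ ≤ c j := fun j => norm_le_bl _ _ (norm_uI α) _ _ _
  have hb0 : ∀ j, 0 ≤ c j := fun j => le_trans (norm_nonneg _) (hnb j)
  have hbL : ∀ j, c j ≤ ∑ i, c i := fun j =>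
    Finset.single_le_sum (fun i _ => hb0 i) (Finset.mem_univ j)
  have hLn : Ln (uI α) (hI α b) x B = ∑ i, c i := rfl
  rw [hLn]
  set L := ∑ i, c i with hLdef
  have hL0 : 0 ≤ L := Finset.sum_nonneg (fun i _ => hb0 i)
  have hvis : ∀ s j, s ∈ B j → hI α b s - ip (uI α s) (x 0) ≤ 2 * L := by
    intro s j hj
    have h1 := (vis_le (uI α) (hI α b) (norm_uI α) (B j) s hj (x j) (x (j + 1))).1
    have h2 := cyc2 x c hnb j 0
    have h3 := ip_diff_le (norm_uI α s) (x j) (x 0)
    have h4 := hbL j
    simp only [hc] at h4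
    linarith
  obtain ⟨j0, hj0⟩ := hV.1 0 (by simp)
  obtain ⟨j1, hj1⟩ := hV.1 1 (by simp)
  obtain ⟨j2, hj2⟩ := hV.1 2 (by simp)
  have v0 : b / 2 * Real.sin α - (-Real.sin α * (x 0).re + Real.cos α * (x 0).im) ≤ 2 * L :=
    hvis 0 j0 hj0
  have v1 : (0 : ℝ) - ((0 : ℝ) * (x 0).re + (-1) * (x 0).im) ≤ 2 * L := hvis 1 j1 hj1
  have v2 : b / 2 * Real.sin α - (Real.sin α * (x 0).re + Real.cos α * (x 0).im) ≤ 2 * L :=
    hvis 2 j2 hj2
  have hbS : 0 < b * Real.sin α := by positivity
  have hy : (x 0).im ≤ 2 * L := by linarith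
  have hcy : Real.cos α * (x 0).im ≤ Real.cos α * (2 * L) := mul_le_mul_of_nonneg_left hy hC.le
  have hcL : Real.cos α * (2 * L) ≤ 1 * (2 * L) :=
    mul_le_mul_of_nonneg_right hC1 (by linarith)
  -- the length
  have hlen : b * Real.sin α / 8 ≤ L := by
    rw [div_le_iff₀ (by norm_num)]
    linarith
  -- the vertical coordinate
  have hcy2 : -(2 * L) ≤ Real.cos α * (x 0).im := by linarith
  have him : |(x 0).im| ≤ 2 / Real.cos α * L := by
    rw [abs_le]
    constructor
    · have e : -(2 / Real.cos α * L) = -(2 * L) / Real.cos α := by ring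
      rw [e, div_le_iff₀ hC]
      linarith
    · have e : 2 / Real.cos α * L = 2 * L / Real.cos α := by ring
      rw [e, le_div_iff₀ hC]
      linarith
  have hre : |(x 0).re| ≤ 4 / Real.sin α * L := by
    rw [abs_le]
    constructor
    · have e : -(4 / Real.sin α * L) = -(4 * L) / Real.sin α := by ring
      rw [e, div_le_iff₀ hS]
      linarith
    · have e : 4 / Real.sin α * L = 4 * L / Real.sin α := by ring
      rw [e, le_div_iff₀ hS]
      linarith
  constructor
  · refine le_trans (Complex.norm_le_abs_re_add_abs_im (x 0)) ?_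
    have p1 : 0 < 8 / (b * Real.sin α) := by positivity
    have p2 : 0 < 4 / Real.sin α := by positivity
    have p3 : 0 < 2 / Real.cos α := by positivity
    have p4 : 0 ≤ 8 / (b * Real.sin α) * L := by positivity
    nlinarith
  · have h9 : 1 / (4 / Real.sin α + 2 / Real.cos α + 8 / (b * Real.sin α))
        ≤ b * Real.sin α / 8 := by
      rw [div_le_div_iff₀ (by positivity) (by norm_num)]
      have h10 : 8 / (b * Real.sin α)
          ≤ 4 / Real.sin α + 2 / Real.cos α + 8 / (b * Real.sin α) := by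
        have p2 : 0 < 4 / Real.sin α := by positivity
        have p3 : 0 < 2 / Real.cos α := by positivity
        linarith
      rw [div_le_iff₀ hbS] at h10
      linarith
    linarith

end Pool.Agent.XQ.GI.H47
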