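import Pool.Agent.Helper35_XQ.StmtAH

/-!
Squad XQ (MP_5b0138_an), Part AH: module CLA (helper47), adapted from `claimA` of
`Helper60_AEU/Asm.lean`.
-/

set_option autoImplicit false

namespace Pool.Agent.XQ.H47AH

open MeasureTheory Complex Filter Topology Pool.Agent.H62T Pool.Agent.H60K Pool.Agent.H38KL
open scoped ENNReal NNReal

/-- CLA for a fixed geometry. -/
theorem claG (hBLC : BlcStatement) (hREF : AH.RefStatement) (hLDM : LdmStatement)
    {α d l δ ρ R : ℝ} (hδ : 0 < δ) (hl : 0 < l) (hR : 0 < R)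
    (gloc : ∀ (n : ℕ) [NeZero n] (x : Fin n → ℂ) (A : Fin n → Finset (Fin 3)),
      Vis {0, 1} {2} A → Cns (us α 0) (hh d) x A →
        ‖x 0‖ ≤ R * (1 + Ln (us α 0) (hh d) x A) ∧ 1 / R ≤ Ln (us α 0) (hh d) x A)
    (g1 : ∀ (n : ℕ) [NeZero n] (x : Fin n → ℂ) (A : Fin n → Finset (Fin 3)), 2 ≤ n →
      Vis {0, 1} {2} A → Cns (us α 0) (hh d) x A → Sho (us α 0) (hh d) δ x A →
        Ln (us α 0) (hh d) x A < l →
        Adp {1} (d - 2 * δ) x A ∧ NoAlt {1} A ∧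
        (ch (d - 2 * δ) (x 0) ≠ ch (d - 2 * δ) (x 1) →
          x 0 ∈ Rw (d - 2 * δ) δ ρ 0 ∧ x 1 ∈ Rw (d - 2 * δ) δ ρ 0))
    (g3 : ∀ (n : ℕ) [NeZero n] (x : Fin n → ℂ) (A : Fin n → Finset (Fin 3)), 2 ≤ n →
      A 0 = ∅ → Bad3 {1} {2} A → Cnt (us α 0) (hh d) x A → Sht (us α 0) (hh d) δ x A →
        x 0 ∈ Rw (d - 2 * δ) δ ρ 0 → x 1 ∈ Rw (d - 2 * δ) δ ρ 0 →
        l ≤ Lt (us α 0) (hh d) x A)
    {ε : ℝ} (hε : 0 < ε) (n : ℕ) [NeZero n] (hn : 2 ≤ n) :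
    ∃ (C : ℝ) (p : ℕ), ∀ τ : Fin n → ℝ, (∀ j, 0 < τ j) →
      (∀ j, τ j * l ^ 2 ≤ δ ^ 2 * ∑ i, τ i) →
      |VM (us α 0) (hh d) {0, 1} {2} (∑ j, τ j)
        - ∑ j, AH.TT0 α d (d - 2 * δ) δ ρ (τ j) (∑ i, τ i)|
        ≤ H60K.Q C p ((1 - ε) * l ^ 2) (∑ i, τ i) := by
  have hu := norm_us α 0
  have hVis : ∀ A : Fin n → Finset (Fin 3), Fj {1} A 0 → (∀ j, Disjoint (A j) {2}) →
      Vis {0, 1} {2} A := by
    intro A hF hD
    obtain ⟨k, hk0, hkn, h0, hs⟩ := hF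
    refine ⟨fun s hs' => ?_, hD⟩
    rw [Finset.mem_insert, Finset.mem_singleton] at hs'
    rcases hs' with rfl | rfl
    · exact ⟨_, h0⟩
    · obtain ⟨l, -, -, hl⟩ := hs 1 (Finset.mem_singleton_self 1)
      exact ⟨_, hl⟩
  -- the mass of all loops
  obtain ⟨C0, p0, hV0⟩ := (hLDM (us α 0) (hh d) hu n
    (fun _ A => Vis {0, 1} {2} A) δ (min l (1 / R)) R ε (fun A => MeasurableSet.const _) hδ
    (by positivity) hR hε).1
    (fun x A hS hC _ => (min_le_right _ _).trans (gloc n x A hS hC).2)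
    (fun x A hS hC => (gloc n x A hS hC).1)
  -- the bad set of BLC
  obtain ⟨C1, p1, h1⟩ := (hLDM (us α 0) (hh d) hu n (fun x A => Vis {0, 1} {2} A ∧
      ¬ (Adp {1} (d - 2 * δ) x A ∧ NoAlt {1} A)) δ l R ε (fun A => by
        have := meas_const_and (n := n) (p := NoAlt {1} A) (meas_Adp {1} (d - 2 * δ) A)
        have h2 : MeasurableSet {x : Fin n → ℂ | ¬ (Adp {1} (d - 2 * δ) x A ∧ NoAlt {1} A)} := by
          have h3 := this.compl
          refine h3.congr ?_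
          ext x
          simp only [Set.mem_compl_iff, Set.mem_ofPred_eq]
          tauto
        exact meas_const_and h2) hδ hl hR hε).1
    (fun x A hS hC hSh => by
      by_contra hcon
      push Not at hcon
      obtain ⟨ha, hb, -⟩ := g1 n x A hn hS.1 hC hSh hcon
      exact hS.2 ⟨ha, hb⟩)
    (fun x A hS hC => (gloc n x A hS.1 hC).1)
  -- the first bad set of REF
  obtain ⟨C2, p2, h2⟩ := (hLDM (us α 0) (hh d) hu n (fun x A => Fj {1} A 0 ∧
      (∀ j, Disjoint (A j) {2}) ∧ ch (d - 2 * δ) (x 0) ≠ ch (d - 2 * δ) (x 1) ∧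
      ¬ (x 0 ∈ Rw (d - 2 * δ) δ ρ 0 ∧ x 1 ∈ Rw (d - 2 * δ) δ ρ 0)) δ l R ε (fun A => by
        have h3 := (meas_ch_ne (n := n) (d - 2 * δ)).inter
          (meas_Rw2 (n := n) (d - 2 * δ) δ ρ 0).compl
        have h4 := meas_const_and (p := Fj {1} A 0 ∧ ∀ j, Disjoint (A j) {2}) h3
        refine h4.congr ?_
        ext x
        simp only [Set.mem_inter_iff, Set.mem_compl_iff, Set.mem_ofPred_eq]
        tauto) hδ hl hR hε).1
    (fun x A hS hC hSh => by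
      by_contra hcon
      push Not at hcon
      obtain ⟨-, -, hc⟩ := g1 n x A hn (hVis A hS.1 hS.2.1) hC hSh hcon
      exact hS.2.2.2 (hc hS.2.2.1))
    (fun x A hS hC => (gloc n x A (hVis A hS.1 hS.2.1) hC).1)
  -- a radius for the window
  set R' : ℝ := |d - 2 * δ| + δ + |ρ| + |(0 : ℝ)| with hR'
  have hR'0 : 0 < R' := by positivity
  -- the second bad set of REF
  obtain ⟨C4, p4, h4⟩ := (hLDM (us α 0) (hh d) hu n (fun x A => Bad3 {1} {2} A ∧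
      ch (d - 2 * δ) (x 0) ≠ ch (d - 2 * δ) (x 1) ∧
      x 0 ∈ Rw (d - 2 * δ) δ ρ 0 ∧ x 1 ∈ Rw (d - 2 * δ) δ ρ 0) δ l R' ε (fun A => by
        have h3 := (meas_ch_ne (n := n) (d - 2 * δ)).inter
          (meas_Rw2 (n := n) (d - 2 * δ) δ ρ 0)
        exact meas_const_and h3) hδ hl hR'0 hε).2 hn
    (fun x A hS hA hC hSh => g3 n x A hn hA hS.1 hC hSh hS.2.2.1 hS.2.2.2)
    (fun x A hS => norm_Rw hS.2.2.1)
  -- constants
  set p : ℕ := p1 + p2 + p4 with hp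
  set D : ℝ := |C1| + |C2| + |C4| with hD
  have hD0 : 0 ≤ D := by positivity
  refine ⟨(n + 1) * D + n * (D + D), p, fun τ hτ hmesh => ?_⟩
  set t : ℝ := ∑ i, τ i with ht
  have ht0 : 0 < t := Finset.sum_pos (fun i _ => hτ i) ⟨0, Finset.mem_univ _⟩
  set m : ℝ := (1 - ε) * l ^ 2 with hm
  have hQ : ∀ (C : ℝ) (q : ℕ), C ≤ D → q ≤ p →
      C * (1 + t) ^ q / t * Real.exp (-((1 - ε) * l ^ 2 / (4 * t))) ≤ H60K.Q D p m t :=
    fun C q hC hq => Q_le (m := m) ht0 hC hD0 hq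
  have hQ0 : 0 ≤ H60K.Q D p m t := Q_nonneg ht0 hD0
  have hC1 : C1 ≤ D := by
    have := le_abs_self C1
    have := abs_nonneg C2
    have := abs_nonneg C4
    linarith
  have hC2 : C2 ≤ D := by
    have := le_abs_self C2
    have := abs_nonneg C1
    have := abs_nonneg C4
    linarith
  have hC4 : C4 ≤ D := by
    have := le_abs_self C4
    have := abs_nonneg C2
    have := abs_nonneg C1
    linarith
  -- finiteness
  have hmesh0 : ∀ j, τ j * (min l (1 / R)) ^ 2 ≤ δ ^ 2 * ∑ i, τ i := by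
    intro j
    refine le_trans ?_ (hmesh j)
    have h5 : 0 < min l (1 / R) := by positivity
    have h6 : min l (1 / R) ≤ l := min_le_left _ _
    have := hτ j
    gcongr
  have hfin : Ms (us α 0) (hh d) τ (fun _ A => Vis {0, 1} {2} A) ≠ ⊤ :=
    ne_top_of_le_ne_top ENNReal.ofReal_ne_top (hV0 τ hτ hmesh0)
  have hb1 : |VM (us α 0) (hh d) {0, 1} {2} (∑ j, τ j)
      - ∑ j : Fin n, TC (us α 0) (hh d) (fun i => τ (i + j)) {1} {2} (d - 2 * δ)|
      ≤ (n + 1) * (Ms (us α 0) (hh d) τ (fun x A => Vis {0, 1} {2} A ∧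
        ¬ (Adp {1} (d - 2 * δ) x A ∧ NoAlt {1} A))).toReal :=
    hBLC (us α 0) (hh d) hu n τ hn hτ {1} {2} (d - 2 * δ) (by decide) (by decide) (by decide) hfin
  have hb1' : |VM (us α 0) (hh d) {0, 1} {2} t
      - ∑ j : Fin n, TC (us α 0) (hh d) (fun i => τ (i + j)) {1} {2} (d - 2 * δ)|
        ≤ (n + 1) * H60K.Q D p m t := by
    refine hb1.trans ?_
    have h5 : (Ms (us α 0) (hh d) τ (fun x A => Vis {0, 1} {2} A ∧
        ¬ (Adp {1} (d - 2 * δ) x A ∧ NoAlt {1} A))).toReal ≤ H60K.Q D p m t := by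
      refine ENNReal.toReal_le_of_le_ofReal hQ0 ((h1 τ hτ hmesh).trans ?_)
      exact ENNReal.ofReal_le_ofReal (hQ C1 p1 hC1 (by omega))
    gcongr
  have hb2 : ∀ j : Fin n, |TC (us α 0) (hh d) (fun i => τ (i + j)) {1} {2} (d - 2 * δ)
      - AH.TT0 α d (d - 2 * δ) δ ρ (τ j) t| ≤ H60K.Q (D + D) p m t := by
    intro j
    have hs : ∑ i, τ (i + j) = t := sum_rot τ j
    have hτ' : ∀ i, 0 < (fun i => τ (i + j)) i := fun i => hτ _
    have hmesh' : ∀ i, (fun i => τ (i + j)) i * l ^ 2 ≤ δ ^ 2 * ∑ i, (fun i => τ (i + j)) i := by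
      intro i
      simp only [hs]
      exact hmesh _
    have hmesh0' : ∀ i, (fun i => τ (i + j)) i * (min l (1 / R)) ^ 2
        ≤ δ ^ 2 * ∑ i, (fun i => τ (i + j)) i := by
      intro i
      simp only [hs]
      exact hmesh0 _
    have hfin' : Ms (us α 0) (hh d) (fun i => τ (i + j))
        (fun _ A => Vis {0, 1} {2} A) ≠ ⊤ :=
      ne_top_of_le_ne_top ENNReal.ofReal_ne_top (hV0 _ hτ' hmesh0')
    have h5 := hREF α d (d - 2 * δ) δ ρ n (fun i => τ (i + j)) hδ (by linarith) hn hτ' hfin'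
    have e2 := h2 _ hτ' hmesh'
    have e4 := h4 _ hτ' hmesh'
    simp only [hs, zero_add] at h5 e2 e4
    have h6 := h5.trans (add_le_add
      (e2.trans (ENNReal.ofReal_le_ofReal (hQ C2 p2 hC2 (by omega))))
      (e4.trans (ENNReal.ofReal_le_ofReal (hQ C4 p4 hC4 (by omega)))))
    rw [← ENNReal.ofReal_add hQ0 hQ0, ENNReal.ofReal_le_ofReal_iff (by positivity)] at h6
    rwa [Q_add] at h6
  have hb3 : |∑ j : Fin n, TC (us α 0) (hh d) (fun i => τ (i + j)) {1} {2} (d - 2 * δ)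
      - ∑ j, AH.TT0 α d (d - 2 * δ) δ ρ (τ j) t| ≤ n * H60K.Q (D + D) p m t := by
    rw [← Finset.sum_sub_distrib]
    refine (Finset.abs_sum_le_sum_abs _ _).trans ?_
    refine (Finset.sum_le_sum fun j _ => hb2 j).trans ?_
    simp
  have := abs_sub_le (VM (us α 0) (hh d) {0, 1} {2} t)
    (∑ j : Fin n, TC (us α 0) (hh d) (fun i => τ (i + j)) {1} {2} (d - 2 * δ))
    (∑ j, AH.TT0 α d (d - 2 * δ) δ ρ (τ j) t)
  rw [Q_mul] at hb1' hb3
  have h7 := add_le_add hb1' hb3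
  rw [Q_add] at h7
  exact this.trans h7

/-- CLA: the mass of the loops is the sum of the fluxes through the half window. -/
theorem cla (hREF : AH.RefStatement) (hGEN : AH.GenStatement) (hLOC : AH.LocStatement) :
    AH.ClaStatement := by
  intro α d hα hα' hd
  obtain ⟨R, hR, hloc⟩ := hLOC α d hα hα' hd
  obtain ⟨ρ0, hρ0, hg⟩ := hGEN α d hα hα' hd
  refine ⟨ρ0, hρ0, fun ρ hρ hρ' => ?_⟩
  obtain ⟨e, δ0, he, hδ0, hg⟩ := hg ρ hρ hρ'
  refine ⟨e, δ0, he, hδ0, fun δ hδ hδ' ε hε n hn => ?_⟩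
  have : NeZero n := ⟨by omega⟩
  have hg := fun (n : ℕ) [NeZero n] => hg δ hδ hδ' n
  obtain ⟨C, p, h⟩ := claG blc_all hREF (ldm lab_all AEU.H7.ldb) (ρ := ρ) hδ
    (by positivity : (0 : ℝ) < 2 * d + e) hR (fun n _ x A => hloc n x A)
    (fun n _ x A hn => (hg n x A hn).1) (fun n _ x A hn => (hg n x A hn).2) hε n hn
  refine ⟨C, p, fun τ hτ hmesh => ?_⟩
  have h1 := h τ hτ hmesh
  unfold H60K.Q at h1
  exact h1

end Pool.Agent.XQ.H47AH
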